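import Pool.Agent.K6.H24.MH.Fn5

/-!
# Non-uniqueness of weak solutions for multifluid incompressible MHD with two-valued densities

This is the model case of the problem: the initial density takes exactly two positive values
`α < β`, each on a set of positive measure, and nothing else. `Ω ⊂ ℝ³` is any bounded nonempty open
set, `T > 0`, the conductivity is arbitrary and the viscosity is any admissible function of the
density with `η(α) = η(β)` (in particular any positive constant). For all `α < β` with
`(β - α)/(β + α) ≤ 1/10000` there are an initial density `ρ₀` with values in `{α, β}` and a force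
`f ∈ L²(0,T;L²)` such that, for `u₀ = B₀ = 0`, the following two are weak solutions with the same
data: the fluid at rest, and a moving one, whose velocity is `C¹` in time and space, compactly
supported in `(0,T) × Ω` and as small in `C¹` as we like. Its density is `ρ₀ ∘ Y(t)` with volume
preserving continuous maps `Y(t)`, so it is two-valued at all times as well.

Idea. In the starting result `NonUnique` the specific volume is modified in every step by
oscillations whose relative amplitudes are small and summable, hence the density is continuous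
and takes a continuum of values. Here the amplitudes are proportional to `1 - ρ²`, where
`ρ ∈ (-1,1)` is the normalised specific volume, so they are not summable and the limit satisfies
`ρ² = 1` almost everywhere. The fact that the highest derivatives remain bounded in `L²` is a
consequence of a Lyapunov function: their squares are integrated with the weight
`(2 - ρ²)(2 - (ρ ∘ Y)²)`, which decreases in the mean under the oscillations of `ρ` more than the
squares grow; the error is measured relative to the square of the amplitudes. The specific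
volumes converge strongly in `L²` because the increments are almost orthogonal to everything
before, the forces converge weakly only.

All the definitions used in the statement are in `Pool.Agent.H729R2.Defs`.
-/

set_option autoImplicit false

open scoped ContDiff
open MeasureTheory Pool.Agent.H729R2 Pool.Agent.H729R2.MHD

namespace Pool.Agent.Results.MP_59296a_an.TwoPhase

/-- **Non-uniqueness for two-valued densities.** -/
theorem result (Ω : Set R3) (hΩ : IsOpen Ω) (hbd : Bornology.IsBounded Ω) (hne : Ω.Nonempty)
    (T : ℝ) (hT : 0 < T) (α β : ℝ) (hα : 0 < α) (hαβ : α < β)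
    (hr : (β - α) / (β + α) ≤ 1 / 10000) (η σ : ℝ → ℝ) (hη : Coeff η) (hσ : Coeff σ)
    (hηαβ : η α = η β) (ε : ℝ) (hε : 0 < ε) :
    ∃ (ρ₀ : R3 → ℝ) (f : ℝ → R3 → R3) (Y : ℝ → R3 → R3) (u : ℝ → R3 → R3),
      Measurable ρ₀ ∧ (∀ x, ρ₀ x = α ∨ ρ₀ x = β) ∧
      0 < volume {x ∈ Ω | ρ₀ x = α} ∧ 0 < volume {x ∈ Ω | ρ₀ x = β} ∧
      IsData Ω T η σ ρ₀ 0 0 f ∧
      WeakSol Ω T η σ ρ₀ 0 0 f (fun _ => ρ₀) 0 0 ∧
      WeakSol Ω T η σ ρ₀ 0 0 f (fun t x => ρ₀ (Y t x)) u 0 ∧
      (Continuous (fun z : ℝ × R3 => Y z.1 z.2) ∧ (∀ x, Y 0 x = x) ∧
        ∀ t, MeasurePreserving (Y t) volume volume) ∧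
      (ContDiff ℝ 1 (fun z : ℝ × R3 => u z.1 z.2) ∧
        HasCompactSupport (fun z : ℝ × R3 => u z.1 z.2) ∧
        tsupport (fun z : ℝ × R3 => u z.1 z.2) ⊆ Cyl Ω T ∧
        ∀ z : ℝ × R3, ‖u z.1 z.2‖ ≤ ε ∧ ‖fderiv ℝ (fun z : ℝ × R3 => u z.1 z.2) z‖ ≤ ε) ∧
      ¬ ∀ᵐ z ∂(volume.restrict (Cyl Ω T)), u z.1 z.2 = 0 :=
  Pool.Agent.K6.H24.MH.main hΩ hbd hne hT hη hσ hα hαβ hr hηαβ hε

end Pool.Agent.Results.MP_59296a_an.TwoPhase
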